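import Pool.Agent.EDX.Stmts2
import Pool.Agent.Helper88_EDG.GRF
import Pool.Agent.Helper38_EDG.EXP
import Pool.Agent.Helper15_EDG.CNG

set_option autoImplicit false

namespace Pool.Agent.EDX.H72

open Polynomial Finset Pool.Agent.EDG Pool.Agent.EDX

theorem ev_h_two_pow {R : Type} [CommRing R] (b t : R) (s e : ℕ) :
    ev b t (h (2 ^ s * e)) = ev b (it b t s) (h e) := by
  induction s generalizing t with
  | zero => simp [it_zero]
  | succ s ih =>
    rw [show 2 ^ (s + 1) * e = 2 * (2 ^ s * e) by ring, h_two_mul, ev_comp_F, ih, ← it_succ']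

/-- the representative polynomial of a class -/
noncomputable def Uc (n D : ℕ) (c : (l : Fin n) → Fin D → ZMod (2 ^ (n - (l : ℕ)))) (l : Fin n) : ℤ[X] :=
  ∑ k : Fin D, C (((c l k).cast : ℤ)) * X ^ (k : ℕ)

/-- the value polynomial -/
noncomputable def Bc (n D M : ℕ) (c : (l : Fin n) → Fin D → ZMod (2 ^ (n - (l : ℕ)))) (i : ℕ) : ℤ[X] :=
  ∑ l : Fin n, (2 * X) ^ (l : ℕ) * (Uc n D c l).comp (X ^ (2 ^ (M + i)))

theorem cast_sub (m : ℕ) (a : ℤ) : ((m : ℕ) : ℤ) ∣ a - (((a : ZMod m).cast : ℤ)) := by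
  rw [← ZMod.intCast_zmod_eq_zero_iff_dvd] 
  simp

/-- everything in an abstract ring where `g` and `2 ^ n` vanish -/
theorem core {n : ℕ} {g : ℤ[X]} (hc : Cyc n g) {M : ℕ} (hM : n ≤ M)
    (hcng : ∀ (R : Type) [CommRing R] (b : R), aeval b g = 0 → ∀ i : ℕ, ∃ r : R,
      it b (-b) i = it b (b ^ (2 ^ (M + i))) n + 2 ^ n * r)
    {G : ℤ[X]} (hGm : G.Monic) (hGd : G.natDegree = g.natDegree)
    (hG : ∀ (R : Type) [CommRing R] (b : R), aeval b g = 0 → ∀ i : ℕ, ∃ r : R,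
      aeval (b ^ (2 ^ (M + i))) G = 2 ^ M * r)
    (V : ℕ → ℕ → ℕ → ℤ[X])
    (hV : ∀ s e : ℕ, ∀ (R : Type) [CommRing R] (b t : R), ∃ r : R,
      2 ^ s * aeval b (X ^ s : ℤ[X]) * ev b t (h (2 ^ n * e)) =
        ∑ l ∈ range n, (2 * b) ^ l * aeval t (V s e l) + 2 ^ n * r)
    (a : ℕ → ℕ → ℤ) (B : ℕ) (i : ℕ) (U : ℕ → ℤ[X])
    (hU : ∀ l, U l = (∑ s ∈ range B, ∑ e ∈ range B, C (a s e) * V s e l) %ₘ G)
    {R : Type} [CommRing R] (φ : ℤ[X] →+* R) (hφg : φ g = 0) (hφ2 : (2 : R) ^ n = 0) :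
    φ (∑ s ∈ range B, ∑ e ∈ range B, C (a s e) * ((2 * X) ^ s * ev (X : ℤ[X]) (Yp i) (h e))) =
      φ (Bc n g.natDegree M (fun l k => ((U l).coeff k : ZMod (2 ^ (n - (l : ℕ))))) i) := by
  classical
  set b : R := φ X with hb
  have hφ : ∀ p : ℤ[X], φ p = aeval b p := by
    intro p
    have h1 : φ = (aeval b : ℤ[X] →ₐ[ℤ] R).toRingHom := by
      apply Polynomial.ringHom_ext'
      · exact RingHom.ext_int _ _
      · simp [b]
    exact congrArg (fun φ => φ p) h1
  have hg0 : aeval b g = 0 := by rw [← hφ, hφg]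
  have hy : ∀ i, it b (-b) i = it b (b ^ (2 ^ (M + i))) n := by
    intro i
    obtain ⟨r, hr⟩ := hcng R b hg0 i
    rw [hr, hφ2]; ring
  have hG0 : ∀ i, aeval (b ^ (2 ^ (M + i))) G = 0 := by
    intro i
    obtain ⟨r, hr⟩ := hG R b hg0 i
    rw [hr, ← Nat.sub_add_cancel hM, pow_add, hφ2]; ring
  have hVV : ∀ s e, (2 * b) ^ s * ev b (it b (-b) i) (h e) =
      ∑ l ∈ range n, (2 * b) ^ l * aeval (b ^ (2 ^ (M + i))) (V s e l) := by
    intro s e
    obtain ⟨r, hr⟩ := hV s e R b (b ^ (2 ^ (M + i)))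
    rw [ev_h_two_pow, ← hy, hφ2, zero_mul, add_zero] at hr
    rw [← hr]
    simp only [map_pow, aeval_X]
    ring
  have hUU : ∀ l, aeval (b ^ (2 ^ (M + i))) (U l) =
      ∑ s ∈ range B, ∑ e ∈ range B, (a s e : R) * aeval (b ^ (2 ^ (M + i))) (V s e l) := by
    intro l
    have h2 := modByMonic_add_div (∑ s ∈ range B, ∑ e ∈ range B, C (a s e) * V s e l) G
    have h3 := congrArg (aeval (b ^ (2 ^ (M + i)))) h2
    rw [map_add, map_mul, hG0, zero_mul, add_zero] at h3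
    rw [hU, h3]
    simp [map_sum]
  have hA : φ (∑ s ∈ range B, ∑ e ∈ range B, C (a s e) * ((2 * X) ^ s * ev (X : ℤ[X]) (Yp i) (h e))) =
      ∑ l ∈ range n, (2 * b) ^ l * aeval (b ^ (2 ^ (M + i))) (U l) := by
    rw [hφ]
    have h1 : aeval b (∑ s ∈ range B, ∑ e ∈ range B, C (a s e) * ((2 * X) ^ s * ev (X : ℤ[X]) (Yp i) (h e)))
        = ∑ s ∈ range B, ∑ e ∈ range B, (a s e : R) * ((2 * b) ^ s * ev b (it b (-b) i) (h e)) := by
      simp only [map_sum, map_mul, map_pow, aeval_X, aeval_ev, aeval_Yp, map_ofNat, aeval_C, eq_intCast]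
      simp
    rw [h1]
    simp only [hVV, hUU, mul_sum]
    symm
    rw [sum_comm]
    apply sum_congr rfl
    intro s _
    rw [sum_comm]
    apply sum_congr rfl
    intro e _
    apply sum_congr rfl
    intro l _
    ring
  have hB : φ (Bc n g.natDegree M (fun l k => ((U l).coeff k : ZMod (2 ^ (n - (l : ℕ))))) i) =
      ∑ l ∈ range n, (2 * b) ^ l * aeval (b ^ (2 ^ (M + i))) (U l) := by
    rw [hφ, Bc, map_sum, ← Fin.sum_univ_eq_sum_range (fun l => (2 * b) ^ l * aeval (b ^ (2 ^ (M + i))) (U l)) n]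
    apply sum_congr rfl
    intro l _
    have hdeg : (U l).degree < (g.natDegree : WithBot ℕ) := by
      rw [hU]
      have := degree_modByMonic_lt (∑ s ∈ range B, ∑ e ∈ range B, C (a s e) * V s e l) hGm
      rwa [degree_eq_natDegree hGm.ne_zero, hGd] at this
    have hUl : U l = ∑ k : Fin g.natDegree, C ((U l).coeff k) * X ^ (k : ℕ) := by
      ext k
      simp only [finsetSum_coeff, coeff_C_mul, coeff_X_pow]
      by_cases hk : k < g.natDegree
      · rw [Finset.sum_eq_single (⟨k, hk⟩ : Fin g.natDegree)]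
        · simp
        · intro k' _ hk'
          have : ¬ (k = (k' : ℕ)) := fun hh => hk' (Fin.ext hh.symm)
          simp [this]
        · intro hj; exact absurd (mem_univ _) hj
      · rw [coeff_eq_zero_of_degree_lt (hdeg.trans_le (by exact_mod_cast (not_lt.mp hk)))]
        symm
        apply sum_eq_zero
        intro k' _
        have : ¬ (k = (k' : ℕ)) := fun hh => hk (hh ▸ k'.2)
        simp [this]
    rw [map_mul, aeval_comp]
    simp only [map_pow, map_mul, aeval_X, map_ofNat]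
    have key : (2 * b) ^ (l : ℕ) * (aeval (b ^ (2 ^ (M + i))) (U l) -
        aeval (b ^ (2 ^ (M + i))) (Uc n g.natDegree (fun l k => ((U l).coeff k : ZMod (2 ^ (n - (l : ℕ))))) l)) = 0 := by
      rw [hUl, Uc]
      simp only [map_sum, map_mul, aeval_C, map_pow, aeval_X, ← sum_sub_distrib, mul_sum]
      apply sum_eq_zero
      intro k _
      obtain ⟨d, hd⟩ := cast_sub (2 ^ (n - (l : ℕ))) ((U l).coeff k)
      have hd' : (((U l).coeff k : ℤ) : R) - (((((U l).coeff k : ℤ) : ZMod (2 ^ (n - (l : ℕ)))).cast : ℤ) : R) =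
          2 ^ (n - (l : ℕ)) * (d : R) := by
        have := congrArg (fun z : ℤ => (z : R)) hd
        push_cast at this
        exact this
      have h2 : (2 : R) ^ (l : ℕ) * 2 ^ (n - (l : ℕ)) = 0 := by
        rw [← pow_add, Nat.add_sub_cancel' l.2.le, hφ2]
      simp only [eq_intCast, mul_pow]
      linear_combination (2 ^ (l : ℕ) * b ^ (l : ℕ) * (b ^ (2 ^ (M + i))) ^ (k : ℕ)) * hd' +
        (b ^ (l : ℕ) * (b ^ (2 ^ (M + i))) ^ (k : ℕ) * (d : R)) * h2
    linear_combination -key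
  rw [hA, hB]

theorem cls : ClsStmt := by
  classical
  intro n g hc
  obtain ⟨M, hM, hcng⟩ := Pool.Agent.EDG.H15.cng n g hc n
  obtain ⟨G, hGm, hGd, hG⟩ := Pool.Agent.EDG.H88.grf g hc.monic M
  have hexp : ∀ s e : ℕ, ∃ V : ℕ → ℤ[X], ∀ (R : Type) [CommRing R] (b t : R), ∃ r : R,
      2 ^ s * aeval b (X ^ s : ℤ[X]) * ev b t (h (2 ^ n * e)) =
        ∑ l ∈ range n, (2 * b) ^ l * aeval t (V l) + 2 ^ n * r := fun s e =>
    Pool.Agent.EDG.H38.exp n s (X ^ s) (2 ^ n * e) (by simp)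
  choose V hV using hexp
  let I : Ideal ℤ[X] := Ideal.span {g, C ((2 : ℤ) ^ n)}
  -- the map
  let Φ : ((l : Fin n) → Fin g.natDegree → ZMod (2 ^ (n - (l : ℕ)))) →
      (Fin n × Fin g.natDegree → ZMod (2 ^ n)) :=
    fun c x => (((Bc n g.natDegree M c x.1) %ₘ g).coeff x.2 : ZMod (2 ^ n))
  have hsub : {w : Fin n × Fin g.natDegree → ZMod (2 ^ n) | ∃ (a : ℕ → ℕ → ℤ) (B : ℕ), ∀ x,
      w x = ((∑ s ∈ range B, ∑ e ∈ range B, a s e * vec n g s e x : ℤ) : ZMod (2 ^ n))} ⊆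
      Set.range Φ := by
    rintro w ⟨a, B, hw⟩
    let U : ℕ → ℤ[X] := fun l => (∑ s ∈ range B, ∑ e ∈ range B, C (a s e) * V s e l) %ₘ G
    let c : (l : Fin n) → Fin g.natDegree → ZMod (2 ^ (n - (l : ℕ))) := fun l k => ((U l).coeff k : ZMod _)
    refine ⟨c, ?_⟩
    funext x
    obtain ⟨i, j⟩ := x
    rw [hw]
    show (((Bc n g.natDegree M c i) %ₘ g).coeff j : ZMod (2 ^ n)) = _
    -- the polynomial `A`
    let A : ℤ[X] := ∑ s ∈ range B, ∑ e ∈ range B, C (a s e) * ((2 * X) ^ s * ev (X : ℤ[X]) (Yp i) (h e))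
    have hA : (∑ s ∈ range B, ∑ e ∈ range B, a s e * vec n g s e (i, j) : ℤ) = (A %ₘ g).coeff j := by
      have hlin : ∀ p : ℤ[X], p %ₘ g = modByMonicHom g p := fun p => rfl
      rw [hlin]
      simp only [A]
      rw [map_sum, finsetSum_coeff]
      apply sum_congr rfl
      intro s _
      rw [map_sum, finsetSum_coeff]
      apply sum_congr rfl
      intro e _
      rw [← smul_eq_C_mul, map_smul, coeff_smul, smul_eq_mul]
      rfl
    rw [hA]
    have hAB : Ideal.Quotient.mk I A = Ideal.Quotient.mk I (Bc n g.natDegree M c i) := by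
      apply core hc hM hcng hGm hGd hG V hV a B i U (fun l => rfl)
      · exact Ideal.Quotient.eq_zero_iff_mem.mpr (Ideal.subset_span (by simp))
      · have h1 : Ideal.Quotient.mk I (C ((2 : ℤ) ^ n)) = 0 :=
          Ideal.Quotient.eq_zero_iff_mem.mpr (Ideal.subset_span (by simp))
        rw [← h1]
        simp only [map_pow, map_ofNat]
    rw [Ideal.Quotient.eq, Ideal.mem_span_pair] at hAB
    obtain ⟨p, q, hpq⟩ := hAB
    have h5 : A %ₘ g = (Bc n g.natDegree M c i) %ₘ g + C ((2 : ℤ) ^ n) * (q %ₘ g) := by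
      have h7 : A = Bc n g.natDegree M c i + (p * g + q * C ((2 : ℤ) ^ n)) := by rw [hpq]; ring
      rw [h7, add_modByMonic, add_modByMonic, (modByMonic_eq_zero_iff_dvd hc.monic).mpr (dvd_mul_left g p),
        mul_comm q, ← smul_eq_C_mul, smul_modByMonic, zero_add, smul_eq_C_mul]
    rw [h5, coeff_add, coeff_C_mul]
    have h6 : ((2 : ZMod (2 ^ n)) ^ n) = 0 := by
      have := ZMod.natCast_self (2 ^ n)
      exact_mod_cast this
    push_cast
    rw [h6]; ring
  refine (Set.ncard_le_ncard hsub (Set.toFinite _)).trans ?_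
  rw [← Set.image_univ]
  refine (Set.ncard_image_le (Set.toFinite _)).trans ?_
  rw [Set.ncard_univ, Nat.card_pi]
  have h8 : ∀ l : Fin n, Nat.card (Fin g.natDegree → ZMod (2 ^ (n - (l : ℕ)))) =
      2 ^ ((n - (l : ℕ)) * g.natDegree) := by
    intro l
    rw [Nat.card_fun, Nat.card_zmod, Nat.card_fin, ← pow_mul]
  simp only [h8]
  rw [prod_pow_eq_pow_sum, ← sum_mul, Fin.sum_univ_eq_sum_range (fun l => n - l) n, mul_comm]
  have h9 : ∀ n : ℕ, ∑ l ∈ range n, (n - l) = n * (n + 1) / 2 := by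
    intro n
    rw [← sum_range_reflect]
    have h10 : ∑ j ∈ range n, (n - (n - 1 - j)) = ∑ j ∈ range n, (j + 1) := by
      apply sum_congr rfl
      intro j hj
      have := mem_range.mp hj
      omega
    rw [h10]
    clear h10
    have h11 : ∑ j ∈ range (n + 1), j = ∑ j ∈ range n, (j + 1) := by
      rw [sum_range_succ' (fun j => j) n]; simp
    rw [← h11, Finset.sum_range_id, Nat.add_sub_cancel, mul_comm]
  rw [h9]

end Pool.Agent.EDX.H72
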